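import Mathlib

/-! Binomial coefficients with integer lower argument. -/

set_option autoImplicit false

namespace Pool.Agent.Q278.CT

open Finset

/-- `C(n, j)` with `j` an integer, `0` for negative `j` -/
def Cz (n : ℕ) (j : ℤ) : ℤ := if 0 ≤ j then (n.choose j.toNat : ℤ) else 0

lemma Cz_nat (n j : ℕ) : Cz n (j : ℤ) = n.choose j := by
  unfold Cz
  rw [if_pos (by positivity)]
  simp

lemma Cz_neg (n : ℕ) (j : ℤ) (h : j < 0) : Cz n j = 0 := by
  unfold Cz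
  rw [if_neg (by omega)]

lemma Cz_big (n : ℕ) (j : ℤ) (h : (n : ℤ) < j) : Cz n j = 0 := by
  obtain ⟨i, rfl⟩ := Int.eq_ofNat_of_zero_le (show 0 ≤ j by omega)
  rw [Cz_nat, Nat.choose_eq_zero_of_lt (by omega)]
  simp

lemma Cz_succ (n : ℕ) (j : ℤ) : Cz (n + 1) j = Cz n j + Cz n (j - 1) := by
  rcases lt_trichotomy j 0 with h | h | h
  · rw [Cz_neg _ _ h, Cz_neg _ _ h, Cz_neg _ _ (by omega)]; simp
  · subst h
    rw [Cz_neg n (0 - 1) (by norm_num)]
    have := Cz_nat (n + 1) 0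
    have h2 := Cz_nat n 0
    simp at this h2
    rw [this, h2]; simp
  · obtain ⟨i, rfl⟩ : ∃ i : ℕ, j = ((i + 1 : ℕ) : ℤ) := ⟨(j - 1).toNat, by omega⟩
    rw [Cz_nat, Cz_nat, show ((i + 1 : ℕ) : ℤ) - 1 = (i : ℤ) by push_cast; ring, Cz_nat,
      Nat.choose_succ_succ]
    push_cast; ring

lemma Cz_symm (n : ℕ) (j : ℤ) : Cz n (n - j) = Cz n j := by
  rcases lt_or_ge j 0 with h | h
  · rw [Cz_neg _ _ h, Cz_big _ _ (by omega)]
  · rcases lt_or_ge (n : ℤ) j with h' | h'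
    · rw [Cz_big _ _ h', Cz_neg _ _ (by omega)]
    · obtain ⟨i, rfl⟩ := Int.eq_ofNat_of_zero_le h
      have hi : i ≤ n := by omega
      rw [← Nat.cast_sub hi, Cz_nat, Cz_nat, Nat.choose_symm hi]

end Pool.Agent.Q278.CT
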