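import Mathlib

/-! Sums `∑_{k<n} ∑_j C(k,j)² C(2j,j) P(k,j)` modulo `n²`. -/

set_option autoImplicit false

namespace Pool.Agent.Q278.CT.G

open Finset

/-- `C(n,j)² C(2j,j)` -/
def t (n j : ℕ) : ℚ := (n.choose j : ℚ) ^ 2 * ((2 * j).choose j : ℚ)

lemma cb (k : ℕ) : ((k : ℚ) + 1) * (Nat.choose (2 * (k + 1)) (k + 1) : ℚ) =
    2 * (2 * k + 1) * (Nat.choose (2 * k) k : ℚ) := by
  have h := Nat.succ_mul_centralBinom_succ k
  unfold Nat.centralBinom at h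
  have h2 := congrArg (Nat.cast : ℕ → ℚ) h
  push_cast at h2
  linear_combination h2

lemma t_n (k j : ℕ) : t (k + 1) j * ((k : ℚ) + 1 - j) ^ 2 = ((k : ℚ) + 1) ^ 2 * t k j := by
  unfold t
  have h : (((k + 1).choose j : ℕ) : ℚ) * ((k : ℚ) + 1 - j) = ((k : ℚ) + 1) * (k.choose j : ℚ) := by
    rcases Nat.lt_or_ge (k + 1) j with h | h
    · rw [Nat.choose_eq_zero_of_lt h, Nat.choose_eq_zero_of_lt (by omega)]; simp
    · have h1 := congrArg (Nat.cast : ℕ → ℚ) (Nat.choose_mul_succ_eq k j)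
      rw [Nat.cast_mul, Nat.cast_mul, Nat.cast_sub h] at h1
      push_cast at h1
      linear_combination -h1
  linear_combination ((2 * j).choose j : ℚ) * ((((k + 1).choose j : ℕ) : ℚ) * ((k : ℚ) + 1 - j) +
    ((k : ℚ) + 1) * (k.choose j : ℚ)) * h

lemma t_j (k j : ℕ) : t k (j + 1) * ((j : ℚ) + 1) ^ 2 =
    t k j * (2 * (2 * j + 1) * ((k : ℚ) - j) ^ 2 / (j + 1)) := by
  unfold t
  have h : ((k.choose (j + 1) : ℕ) : ℚ) * ((j : ℚ) + 1) = (k.choose j : ℚ) * ((k : ℚ) - j) := by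
    rcases Nat.lt_or_ge k j with h | h
    · rw [Nat.choose_eq_zero_of_lt h, Nat.choose_eq_zero_of_lt (by omega)]; simp
    · have h1 := congrArg (Nat.cast : ℕ → ℚ) (Nat.choose_succ_right_eq k j)
      rw [Nat.cast_mul, Nat.cast_mul, Nat.cast_sub h] at h1
      push_cast at h1
      exact h1
  have h2 := cb j
  have h3 : ((j : ℚ) + 1) ≠ 0 := by positivity
  rw [mul_div_assoc', eq_div_iff h3]
  linear_combination (((2 * (j + 1)).choose (j + 1) : ℕ) : ℚ) * ((j : ℚ) + 1) *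
    (((k.choose (j + 1) : ℕ) : ℚ) * ((j : ℚ) + 1) + (k.choose j : ℚ) * ((k : ℚ) - j)) * h +
    ((k.choose j : ℚ) * ((k : ℚ) - j)) ^ 2 * h2

lemma t_big (n j : ℕ) (h : n < j) : t n j = 0 := by
  unfold t
  rw [Nat.choose_eq_zero_of_lt h]; simp

/-- the double sum -/
def SS (P : ℕ → ℕ → ℚ) (n : ℕ) : ℚ := ∑ k ∈ range n, ∑ j ∈ range (k + 1), t k j * P k j

/-- bounded denominators after division by `n²` -/
def Nice (P : ℕ → ℕ → ℚ) : Prop := ∃ a : ℤ, a ≠ 0 ∧ ∀ n : ℕ, ∃ u : ℤ, (a : ℚ) * SS P n = (n : ℚ) ^ 2 * u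

lemma Nice.congr {P Q : ℕ → ℕ → ℚ} (hP : Nice P) (h : ∀ k j, P k j = Q k j) : Nice Q := by
  have : P = Q := funext fun k => funext fun j => h k j
  rwa [← this]

lemma Nice.add {P Q : ℕ → ℕ → ℚ} (hP : Nice P) (hQ : Nice Q) : Nice (fun k j => P k j + Q k j) := by
  obtain ⟨a, ha, h1⟩ := hP
  obtain ⟨b, hb, h2⟩ := hQ
  refine ⟨a * b, mul_ne_zero ha hb, fun n => ?_⟩
  obtain ⟨u, hu⟩ := h1 n
  obtain ⟨v, hv⟩ := h2 n
  refine ⟨b * u + a * v, ?_⟩
  have : SS (fun k j => P k j + Q k j) n = SS P n + SS Q n := by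
    unfold SS
    rw [← sum_add_distrib]
    refine sum_congr rfl fun k _ => ?_
    rw [← sum_add_distrib]
    exact sum_congr rfl fun j _ => by ring
  rw [this]
  push_cast
  linear_combination (b : ℚ) * hu + (a : ℚ) * hv

lemma Nice.smul {P : ℕ → ℕ → ℚ} (hP : Nice P) (q : ℚ) : Nice (fun k j => q * P k j) := by
  obtain ⟨a, ha, h1⟩ := hP
  refine ⟨a * q.den, mul_ne_zero ha (by exact_mod_cast q.den_nz), fun n => ?_⟩
  obtain ⟨u, hu⟩ := h1 n
  refine ⟨q.num * u, ?_⟩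
  have : SS (fun k j => q * P k j) n = q * SS P n := by
    unfold SS
    rw [mul_sum]
    refine sum_congr rfl fun k _ => ?_
    rw [mul_sum]
    exact sum_congr rfl fun j _ => by ring
  rw [this]
  push_cast
  have hq : (q.den : ℚ) * q = q.num := by
    rw [mul_comm]; exact_mod_cast Rat.mul_den_eq_num q
  linear_combination (q.num : ℚ) * hu + (a : ℚ) * SS P n * hq

lemma Nice.zero : Nice (fun _ _ => 0) := ⟨1, one_ne_zero, fun n => ⟨0, by simp [SS]⟩⟩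

lemma Nice.sum {ι : Type*} (s : Finset ι) (P : ι → ℕ → ℕ → ℚ) (h : ∀ i ∈ s, Nice (P i)) :
    Nice (fun k j => ∑ i ∈ s, P i k j) := by
  classical
  induction s using Finset.induction_on with
  | empty => exact Nice.zero.congr fun k j => by simp
  | insert i s hi ih =>
    refine ((h i (mem_insert_self i s)).add (ih fun i' hi' => h i' (mem_insert_of_mem hi'))).congr
      fun k j => ?_
    rw [sum_insert hi]

lemma Nice.of_zero {P : ℕ → ℕ → ℚ} (h : ∀ k, ∑ j ∈ range (k + 1), t k j * P k j = 0) : Nice P :=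
  ⟨1, one_ne_zero, fun n => ⟨0, by unfold SS; rw [sum_eq_zero fun k _ => h k]; simp⟩⟩

/-- admissible multipliers -/
def Adm (R : ℕ → ℕ → ℚ) : Prop := ∃ a : ℤ, a ≠ 0 ∧ ∀ n j : ℕ, ∃ u : ℤ, (a : ℚ) * (((2 * j).choose j : ℕ) : ℚ) * R n j = u

/-- telescoping in `k` -/
lemma tel (R : ℕ → ℕ → ℚ) (n : ℕ) : SS (fun k j => ((k : ℚ) + 1) ^ 2 * R (k + 1) j - ((k : ℚ) - j) ^ 2 * R k j) n =
    ∑ j ∈ range (n + 1), t n j * (((n : ℚ) - j) ^ 2 * R n j) := by
  induction n with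
  | zero => simp [SS]
  | succ n ih =>
    have h1 : SS (fun k j => ((k : ℚ) + 1) ^ 2 * R (k + 1) j - ((k : ℚ) - j) ^ 2 * R k j) (n + 1) =
        SS (fun k j => ((k : ℚ) + 1) ^ 2 * R (k + 1) j - ((k : ℚ) - j) ^ 2 * R k j) n +
        ∑ j ∈ range (n + 1), t n j * (((n : ℚ) + 1) ^ 2 * R (n + 1) j - ((n : ℚ) - j) ^ 2 * R n j) := by
      unfold SS
      rw [sum_range_succ]
    rw [h1, ih, ← sum_add_distrib, sum_range_succ _ (n + 1)]
    have h2 : t (n + 1) (n + 1) * ((((n + 1 : ℕ) : ℚ) - ((n + 1 : ℕ) : ℚ)) ^ 2 * R (n + 1) (n + 1)) = 0 := by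
      rw [sub_self]; ring
    rw [h2, add_zero]
    refine sum_congr rfl fun j _ => ?_
    have h3 := t_n n j
    push_cast
    linear_combination -(R (n + 1) j) * h3

lemma Nice.tel {R : ℕ → ℕ → ℚ} (hR : Adm R) :
    Nice (fun k j => ((k : ℚ) + 1) ^ 2 * R (k + 1) j - ((k : ℚ) - j) ^ 2 * R k j) := by
  obtain ⟨a, ha, h1⟩ := hR
  choose u hu using h1
  refine ⟨a, ha, fun n => ?_⟩
  rw [Pool.Agent.Q278.CT.G.tel]
  rcases n with _ | m
  · exact ⟨0, by simp⟩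
  · refine ⟨∑ j ∈ range (m + 1 + 1), (m.choose j : ℤ) ^ 2 * u (m + 1) j, ?_⟩
    rw [mul_sum]
    push_cast
    rw [mul_sum]
    refine sum_congr rfl fun j _ => ?_
    have h3 := t_n m j
    rw [← hu (m + 1) j]
    unfold t at h3 ⊢
    linear_combination (a : ℚ) * R (m + 1) j * h3

/-- telescoping in `j` -/
lemma Nice.telj (Q : ℕ → ℕ → ℚ) :
    Nice (fun k j => 2 * (2 * (j : ℚ) + 1) * ((k : ℚ) - j) ^ 2 / (j + 1) * Q k (j + 1) - (j : ℚ) ^ 2 * Q k j) := by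
  apply Nice.of_zero
  intro k
  have h1 : ∀ j ∈ range (k + 1), t k j * (2 * (2 * (j : ℚ) + 1) * ((k : ℚ) - j) ^ 2 / (j + 1) * Q k (j + 1) -
      (j : ℚ) ^ 2 * Q k j) = t k (j + 1) * ((j + 1 : ℕ) : ℚ) ^ 2 * Q k (j + 1) - t k j * (j : ℚ) ^ 2 * Q k j := by
    intro j _
    have h := t_j k j
    push_cast
    linear_combination -(Q k (j + 1)) * h
  rw [sum_congr rfl h1, sum_range_sub (fun j => t k j * (j : ℚ) ^ 2 * Q k j), t_big k (k + 1) (by omega)]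
  simp

end Pool.Agent.Q278.CT.G
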