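import Mathlib
import Pool.Agent.Q278.CT.E2f

/-! The symmetry relation and the conclusion. -/

set_option autoImplicit false

namespace Pool.Agent.Q278.CT.G

open Finset

/-- `(C(k,j) C(j,a))²` -/
def w (k a j : ℕ) : ℚ := ((k.choose j : ℚ) * (j.choose a : ℚ)) ^ 2

lemma t_w (k j : ℕ) (hj : j ≤ k) : t k j = ∑ a ∈ range (k + 1), w k a j := by
  unfold t w
  have h1 : ((2 * j).choose j : ℚ) = ∑ a ∈ range (j + 1), (j.choose a : ℚ) ^ 2 := by
    have := Nat.sum_range_choose_sq j
    rw [← this]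
    push_cast
    rfl
  have h2 : ∑ a ∈ range (k + 1), ((k.choose j : ℚ) * (j.choose a : ℚ)) ^ 2 =
      ∑ a ∈ range (j + 1), ((k.choose j : ℚ) * (j.choose a : ℚ)) ^ 2 := by
    symm
    apply sum_subset
    · intro a ha
      rw [mem_range] at *
      omega
    · intro a _ ha
      rw [mem_range] at ha
      rw [Nat.choose_eq_zero_of_lt (by omega : j < a)]; simp
  rw [h1, h2, mul_sum]
  exact sum_congr rfl fun a _ => by ring

lemma w_symm (k a j : ℕ) (ha : a ≤ k) (hj : j ≤ k) : w k (k - j) (k - a) = w k a j := by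
  unfold w
  congr 1
  rcases Nat.lt_or_ge j a with h | h
  · rw [Nat.choose_eq_zero_of_lt (by omega : k - a < k - j), Nat.choose_eq_zero_of_lt h]; simp
  · rw [Nat.choose_symm ha]
    have h1 := Nat.choose_mul (n := k) (k := j) (s := a) h
    have h2 : (k - a).choose (k - j) = (k - a).choose (j - a) := by
      rw [← Nat.choose_symm (by omega : j - a ≤ k - a)]
      congr 1
      omega
    rw [h2]
    exact_mod_cast h1.symm

lemma sym (k : ℕ) : ∑ j ∈ range (k + 1), t k j * (3 * (j : ℚ) - 2 * k) = 0 := by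
  have hA : ∀ j ∈ range (k + 1), ∑ a ∈ range (k + 1), w k a j * ((j : ℚ) - 2 * a) = 0 := by
    intro j hj
    rw [mem_range, Nat.lt_succ_iff] at hj
    have h2 : ∑ a ∈ range (k + 1), w k a j * ((j : ℚ) - 2 * a) =
        ∑ a ∈ range (j + 1), w k a j * ((j : ℚ) - 2 * a) := by
      symm
      apply sum_subset
      · intro a ha
        rw [mem_range] at *
        omega
      · intro a _ ha
        rw [mem_range] at ha
        unfold w
        rw [Nat.choose_eq_zero_of_lt (by omega : j < a)]; simp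
    have h3 : ∑ a ∈ range (j + 1), w k a j * ((j : ℚ) - 2 * a) =
        -∑ a ∈ range (j + 1), w k a j * ((j : ℚ) - 2 * a) := by
      conv_lhs => rw [← sum_range_reflect]
      rw [← sum_neg_distrib]
      refine sum_congr rfl fun a ha => ?_
      rw [mem_range, Nat.lt_succ_iff] at ha
      have e : j + 1 - 1 - a = j - a := by omega
      rw [e]
      unfold w
      rw [Nat.choose_symm ha, Nat.cast_sub ha]
      ring
    rw [h2]
    linarith
  have hB : ∑ j ∈ range (k + 1), ∑ a ∈ range (k + 1), w k a j * (a : ℚ) =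
      ∑ j ∈ range (k + 1), ∑ a ∈ range (k + 1), w k a j * ((k : ℚ) - j) := by
    rw [sum_comm]
    rw [← sum_range_reflect]
    refine sum_congr rfl fun j hj => ?_
    rw [← sum_range_reflect]
    refine sum_congr rfl fun a ha => ?_
    rw [mem_range, Nat.lt_succ_iff] at hj ha
    have e1 : k + 1 - 1 - j = k - j := by omega
    have e2 : k + 1 - 1 - a = k - a := by omega
    rw [e1, e2, w_symm k a j ha hj, Nat.cast_sub hj]
  have h1 : ∀ j ∈ range (k + 1), t k j * (3 * (j : ℚ) - 2 * k) =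
      ∑ a ∈ range (k + 1), w k a j * ((j : ℚ) - 2 * a) + 2 * (∑ a ∈ range (k + 1), w k a j * (a : ℚ) -
        ∑ a ∈ range (k + 1), w k a j * ((k : ℚ) - j)) := by
    intro j hj
    rw [mem_range, Nat.lt_succ_iff] at hj
    rw [t_w k j hj, sum_mul, ← sum_sub_distrib, mul_sum, ← sum_add_distrib]
    exact sum_congr rfl fun a _ => by ring
  rw [sum_congr rfl h1, sum_add_distrib, ← mul_sum, sum_sub_distrib, hB, sum_eq_zero hA]
  ring

lemma nice_sym : Nice (fun k j => 3 * (j : ℚ) - 2 * k) := Nice.of_zero sym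

/-- integrality of `C(2j,j)/(j+1)` -/
lemma cat (j : ℕ) : ∃ u : ℤ, (((2 * j).choose j : ℕ) : ℚ) / (j + 1) = u := by
  refine ⟨catalan j, ?_⟩
  have h2 := congrArg (Nat.cast : ℕ → ℚ) (succ_mul_catalan_eq_centralBinom j)
  unfold Nat.centralBinom at h2
  push_cast at h2 ⊢
  have h3 : ((j : ℚ) + 1) ≠ 0 := by positivity
  rw [div_eq_iff h3]
  linear_combination -h2

lemma adm_poly (R : ℕ → ℕ → ℤ) : Adm (fun k j => (R k j : ℚ)) :=
  ⟨1, one_ne_zero, fun n j => ⟨((2 * j).choose j : ℤ) * R n j, by push_cast; ring⟩⟩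

lemma adm_cat (R : ℕ → ℕ → ℤ) : Adm (fun k j => (R k j : ℚ) / ((j : ℚ) + 1)) :=
  ⟨1, one_ne_zero, fun n j => by
    obtain ⟨u, hu⟩ := cat j
    refine ⟨u * R n j, ?_⟩
    push_cast
    rw [← hu]
    ring⟩

/-- `4k + 3` and `2j + 1` -/
lemma nice_D1 : Nice (fun k j => 2 * (k : ℚ) + 1 - j) :=
  (Nice.tel (adm_cat fun _ _ => 1)).congr fun k j => by
    have h3 : ((j : ℚ) + 1) ≠ 0 := by positivity
    push_cast
    field_simp
    ring

lemma nice_X : Nice (fun _ j => 2 * (j : ℚ) + 1) :=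
  (nice_D1.add nice_sym).congr fun k j => by ring

lemma nice_K : Nice (fun k _ => (k : ℚ) + 3 / 4) :=
  ((nice_X.smul (3 / 4)).add (nice_sym.smul (-1 / 2))).congr fun k j => by ring

lemma nice_N (m : ℕ) : Nice (fun _ j => (2 * (j : ℚ) + 1) * (((j : ℚ) + 1) ^ (m + 2) - (j : ℚ) ^ (m + 2))) := by
  have h1 := Nice.tel (adm_poly fun _ j => 3 * (2 * (j : ℤ) + 1) * ((j : ℤ) + 1) ^ m)
  have h2 := Nice.tel (adm_cat fun k j => 2 * (k : ℤ) * (2 * (j : ℤ) + 1) * ((j : ℤ) + 1) ^ m)
  have h3 := Nice.telj (fun _ j => (2 * (j : ℚ) + 1) * (j : ℚ) ^ m)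
  refine ((h1.add (h2.smul (-1))).add h3).congr fun k j => ?_
  have h4 : ((j : ℚ) + 1) ≠ 0 := by positivity
  push_cast
  field_simp
  ring

lemma nice_Xpow (m : ℕ) : Nice (fun _ j => (2 * (j : ℚ) + 1) * (j : ℚ) ^ m) := by
  induction m using Nat.strong_induction_on with
  | _ m ih =>
    rcases m with _ | m
    · exact nice_X.congr fun k j => by simp
    · have h1 := nice_N m
      have h2 : Nice (fun _ j => ∑ i ∈ range (m + 1), ((m + 2).choose i : ℚ) * ((2 * (j : ℚ) + 1) * (j : ℚ) ^ i)) :=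
        Nice.sum _ _ fun i hi => (ih i (by rw [mem_range] at hi; omega)).smul _
      refine ((h1.add (h2.smul (-1))).smul (1 / ((m : ℚ) + 2))).congr fun k j => ?_
      have h3 : ((m : ℚ) + 2) ≠ 0 := by positivity
      have h4 : ((j : ℚ) + 1) ^ (m + 2) = ∑ i ∈ range (m + 1), (j : ℚ) ^ i * ((m + 2).choose i : ℚ) +
          (j : ℚ) ^ (m + 1) * (m + 2) + (j : ℚ) ^ (m + 2) := by
        rw [add_pow, sum_range_succ, sum_range_succ]
        simp
        left
        ring
      have h5 : ∑ i ∈ range (m + 1), ((m + 2).choose i : ℚ) * ((2 * (j : ℚ) + 1) * (j : ℚ) ^ i) =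
          (2 * (j : ℚ) + 1) * ∑ i ∈ range (m + 1), (j : ℚ) ^ i * ((m + 2).choose i : ℚ) := by
        rw [mul_sum]
        exact sum_congr rfl fun i _ => by ring
      rw [h4, h5]
      field_simp
      ring

/-- all positive powers of `2j+1`, times any power of `j` -/
lemma nice_XX (s : ℕ) : ∀ m : ℕ, Nice (fun _ j => (2 * (j : ℚ) + 1) ^ (s + 1) * (j : ℚ) ^ m) := by
  induction s with
  | zero => intro m; exact (nice_Xpow m).congr fun k j => by ring
  | succ s ih =>
    intro m
    exact (((ih (m + 1)).smul 2).add (ih m)).congr fun k j => by ring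

/-- the weights `k (2j+1)^r` -/
lemma nice_kX (s : ℕ) : Nice (fun k j => (k : ℚ) * (2 * (j : ℚ) + 1) ^ (s + 1)) := by
  induction s with
  | zero =>
    have h1 := Nice.tel (adm_poly fun _ _ => 1)
    have h2 := nice_XX 1 0
    refine ((((h1.add (h2.smul (1 / 4))).add (nice_X.smul (-1 / 2))).add (nice_K.smul (-1)))).congr
      fun k j => ?_
    push_cast
    ring
  | succ s ih =>
    have h1 := Nice.tel (adm_poly fun _ j => (2 * (j : ℤ) + 1) ^ (s + 1))
    have h2 := nice_XX s 2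
    have h3 := nice_XX s 0
    refine (((h1.add h2).add (h3.smul (-1))).add (ih.smul (-1))).congr fun k j => ?_
    push_cast
    ring

end Pool.Agent.Q278.CT.G
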