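import Mathlib
import Pool.Agent.Q278.CT.Cz
import Pool.Agent.Q278.RM.Tee

/-! The sequence `CT (1/z - (1+z)(x+2+1/x))^n` and its relatives. -/

set_option autoImplicit false

namespace Pool.Agent.Q278.CT

open Finset

/-- `CT[x^a z^b Λ^n]` -/
def U (a b : ℤ) (n : ℕ) : ℤ :=
  ∑ k ∈ range (n + 1), (-1) ^ k * (n.choose k : ℤ) * Cz k ((n : ℤ) - k - b) * Cz (2 * k) ((k : ℤ) + a)

lemma Cz_two (k : ℕ) (j : ℤ) : Cz (2 * (k + 1)) j = Cz (2 * k) j + 2 * Cz (2 * k) (j - 1) + Cz (2 * k) (j - 2) := by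
  rw [show 2 * (k + 1) = 2 * k + 1 + 1 by ring, Cz_succ, Cz_succ, Cz_succ]
  rw [show j - 1 - 1 = j - 2 by ring]
  ring

lemma U_symm (a b : ℤ) (n : ℕ) : U (-a) b n = U a b n := by
  unfold U
  refine sum_congr rfl fun k _ => ?_
  congr 1
  rw [← Cz_symm]
  congr 1
  push_cast
  ring

lemma R1 (a b : ℤ) (n : ℕ) : U a b (n + 1) = U a (b - 1) n - (U (a + 1) b n + 2 * U a b n + U (a - 1) b n +
    U (a + 1) (b + 1) n + 2 * U a (b + 1) n + U (a - 1) (b + 1) n) := by
  have h1 : U a b (n + 1) = ∑ k ∈ range (n + 2), (-1) ^ k * (n.choose k : ℤ) *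
      Cz k ((n : ℤ) - k - (b - 1)) * Cz (2 * k) ((k : ℤ) + a) -
      ∑ k ∈ range (n + 1), (-1) ^ k * (n.choose k : ℤ) * Cz (k + 1) ((n : ℤ) - k - b) *
        Cz (2 * (k + 1)) ((k : ℤ) + 1 + a) := by
    unfold U
    rw [sum_range_succ' _ (n + 1), sum_range_succ' _ (n + 1), add_sub_right_comm, ← sum_sub_distrib]
    congr 1
    · refine sum_congr rfl fun k _ => ?_
      rw [Nat.choose_succ_succ]
      push_cast
      rw [show (n : ℤ) + 1 - (k + 1) - b = n - k - b by ring,
        show (n : ℤ) - (k + 1) - (b - 1) = n - k - b by ring]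
      ring
    · push_cast
      rw [show (n : ℤ) + 1 - 0 - b = n - 0 - (b - 1) by ring]
      simp
  have h2 : ∑ k ∈ range (n + 2), (-1) ^ k * (n.choose k : ℤ) *
      Cz k ((n : ℤ) - k - (b - 1)) * Cz (2 * k) ((k : ℤ) + a) = U a (b - 1) n := by
    unfold U
    rw [sum_range_succ _ (n + 1), Nat.choose_succ_self]
    simp
  rw [h1, h2]
  congr 1
  unfold U
  simp only [mul_sum, ← sum_add_distrib]
  refine sum_congr rfl fun k _ => ?_
  rw [Cz_succ, Cz_two]
  rw [show (k : ℤ) + 1 + a - 1 = k + a by ring, show (k : ℤ) + 1 + a - 2 = k + (a - 1) by ring,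
    show (k : ℤ) + 1 + a = k + (a + 1) by ring, show (n : ℤ) - k - b - 1 = n - k - (b + 1) by ring]
  ring

lemma U_zero (a b : ℤ) : U a b 0 = if a = 0 ∧ b = 0 then 1 else 0 := by
  unfold U
  rw [sum_range_one]
  split_ifs with h
  · obtain ⟨rfl, rfl⟩ := h
    simp [Cz]
  · have : Cz 0 ((0 : ℕ) - (0 : ℕ) - b) * Cz (2 * 0) ((0 : ℕ) + a) = 0 := by
      rcases lt_trichotomy a 0 with ha | ha | ha
      · rw [Cz_neg (2 * 0) (((0 : ℕ) : ℤ) + a) (by push_cast; omega)]; simp
      · rcases lt_trichotomy b 0 with hb | hb | hb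
        · rw [Cz_big 0 (((0 : ℕ) : ℤ) - ((0 : ℕ) : ℤ) - b) (by push_cast; omega)]; simp
        · exact absurd ⟨ha, hb⟩ h
        · rw [Cz_neg 0 (((0 : ℕ) : ℤ) - ((0 : ℕ) : ℤ) - b) (by push_cast; omega)]; simp
      · rw [Cz_big (2 * 0) (((0 : ℕ) : ℤ) + a) (by push_cast; omega)]; simp
    rw [mul_assoc, this, mul_zero]

/-- derivative in `x` -/
lemma R2 (n : ℕ) : ∀ a b : ℤ, a * U a b (n + 1) = ((n : ℤ) + 1) * (U (a + 1) b n - U (a - 1) b n +
    U (a + 1) (b + 1) n - U (a - 1) (b + 1) n) := by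
  induction n with
  | zero =>
    intro a b
    rw [R1]
    have key : ∀ a b : ℤ, a * U a b 0 = 0 := by
      intro a b
      rw [U_zero]
      split_ifs with h
      · rw [h.1]; ring
      · ring
    have k1 := key a (b - 1)
    have k2 := key (a + 1) b
    have k3 := key a b
    have k4 := key (a - 1) b
    have k5 := key (a + 1) (b + 1)
    have k6 := key a (b + 1)
    have k7 := key (a - 1) (b + 1)
    push_cast
    linear_combination k1 - k2 - 2 * k3 - k4 - k5 - 2 * k6 - k7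
  | succ n ih =>
    intro a b
    have k1 := ih a (b - 1)
    have k2 := ih (a + 1) b
    have k3 := ih a b
    have k4 := ih (a - 1) b
    have k5 := ih (a + 1) (b + 1)
    have k6 := ih a (b + 1)
    have k7 := ih (a - 1) (b + 1)
    rw [R1 a b (n + 1)]
    have m1 := R1 (a + 1) b n
    have m2 := R1 (a - 1) b n
    have m3 := R1 (a + 1) (b + 1) n
    have m4 := R1 (a - 1) (b + 1) n
    have e1 : a + 1 + 1 = a + 2 := by ring
    have e2 : a + 1 - 1 = a := by ring
    have e3 : a - 1 + 1 = a := by ring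
    have e4 : a - 1 - 1 = a - 2 := by ring
    have f1 : b + 1 + 1 = b + 2 := by ring
    have f2 : b + 1 - 1 = b := by ring
    have f3 : b - 1 + 1 = b := by ring
    simp only [e1, e2, e3, e4, f1, f2, f3] at *
    push_cast
    linear_combination k1 - k2 - 2 * k3 - k4 - k5 - 2 * k6 - k7 -
      ((n : ℤ) + 1) * (m1 - m2 + m3 - m4)

/-- derivative in `z` -/
lemma R3 (n : ℕ) : ∀ a b : ℤ, b * U a b (n + 1) = ((n : ℤ) + 1) * (U a (b - 1) n +
    U (a + 1) (b + 1) n + 2 * U a (b + 1) n + U (a - 1) (b + 1) n) := by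
  induction n with
  | zero =>
    intro a b
    rw [R1]
    have key : ∀ a b : ℤ, b * U a b 0 = 0 := by
      intro a b
      rw [U_zero]
      split_ifs with h
      · rw [h.2]; ring
      · ring
    have k1 := key a (b - 1)
    have k2 := key (a + 1) b
    have k3 := key a b
    have k4 := key (a - 1) b
    have k5 := key (a + 1) (b + 1)
    have k6 := key a (b + 1)
    have k7 := key (a - 1) (b + 1)
    push_cast
    linear_combination k1 - k2 - 2 * k3 - k4 - k5 - 2 * k6 - k7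
  | succ n ih =>
    intro a b
    have k1 := ih a (b - 1)
    have k2 := ih (a + 1) b
    have k3 := ih a b
    have k4 := ih (a - 1) b
    have k5 := ih (a + 1) (b + 1)
    have k6 := ih a (b + 1)
    have k7 := ih (a - 1) (b + 1)
    rw [R1 a b (n + 1)]
    have m1 := R1 a (b - 1) n
    have m2 := R1 (a + 1) (b + 1) n
    have m3 := R1 a (b + 1) n
    have m4 := R1 (a - 1) (b + 1) n
    have e1 : a + 1 + 1 = a + 2 := by ring
    have e2 : a + 1 - 1 = a := by ring
    have e3 : a - 1 + 1 = a := by ring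
    have e4 : a - 1 - 1 = a - 2 := by ring
    have f1 : b + 1 + 1 = b + 2 := by ring
    have f2 : b + 1 - 1 = b := by ring
    have f3 : b - 1 + 1 = b := by ring
    have f4 : b - 1 - 1 = b - 2 := by ring
    simp only [e1, e2, e3, e4, f1, f2, f3, f4] at *
    push_cast
    linear_combination k1 - k2 - 2 * k3 - k4 - k5 - 2 * k6 - k7 -
      ((n : ℤ) + 1) * (m1 + m2 + 2 * m3 + m4)

end Pool.Agent.Q278.CT
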