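import Mathlib
import Pool.Agent.Q278.CT.E55

/-! `A(n) / n` as an integral sequence. -/

set_option autoImplicit false

namespace Pool.Agent.Q278.CT

open Finset

/-- the integral sequence `(-1)^n A(n) / n` at `n = N + 2` -/
def W (N : ℕ) : ℤ := -U 0 (-2) N + 4 * U 0 (-1) N + 2 * U 0 0 N - 4 * U 1 (-1) N - 6 * U 1 0 N

theorem main_id (N : ℕ) : ((N : ℤ) + 3) ^ 2 * W (N + 1) + ((N : ℤ) + 3) * ((N : ℤ) + 2) * W N =
    U 0 0 (N + 2) + 12 * U 0 0 (N + 1) + 16 * U 0 0 N := by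
  have r2_1_m1 := R2 N 1 (-1)
  have r2_1_0 := R2 N 1 0
  have r2_1_1 := R2 N 1 1
  have r3_0_m1 := R3 N 0 (-1)
  have r3_0_m2 := R3 N 0 (-2)
  have r3_0_0 := R3 N 0 0
  have r3_0_1 := R3 N 0 1
  have r3_1_m1 := R3 N 1 (-1)
  have r3_1_0 := R3 N 1 0
  have r3_1_1 := R3 N 1 1
  have s1 : ∀ b : ℤ, U (-1) b N = U 1 b N := fun b => U_symm 1 b N
  have s2 : ∀ b : ℤ, U (-2) b N = U 2 b N := fun b => U_symm 2 b N
  unfold W
  have h0 : ((N : ℤ) + 1) * ((N : ℤ) + 2) ≠ 0 := by positivity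
  apply mul_left_cancel₀ h0
  rw [show N + 2 = N + 1 + 1 from rfl]
  simp only [R1] at *
  simp only [Int.reduceAdd, Int.reduceSub, Int.reduceNeg, s1, s2] at *
  generalize (N : ℤ) = x at *
  linear_combination ((-28) + (-50) * x + (-26) * x ^ 2 + (-4) * x ^ 3) * r2_1_m1 + ((-60) + (-106) * x + (-54) * x ^ 2 + (-8) * x ^ 3) * r2_1_0 + ((-64) + (-80) * x + (-32) * x ^ 2 + (-4) * x ^ 3) * r2_1_1 + ((-35) + (-62) * x + (-32) * x ^ 2 + (-5) * x ^ 3) * r3_0_m1 + ((6) + (11) * x + (6) * x ^ 2 + (1) * x ^ 3) * r3_0_m2 + ((-74) + (-128) * x + (-66) * x ^ 2 + (-10) * x ^ 3) * r3_0_0 + ((-30) + (-54) * x + (-28) * x ^ 2 + (-4) * x ^ 3) * r3_0_1 + ((16) + (28) * x + (14) * x ^ 2 + (2) * x ^ 3) * r3_1_m1 + ((82) + (110) * x + (46) * x ^ 2 + (6) * x ^ 3) * r3_1_0 + ((66) + (82) * x + (32) * x ^ 2 + (4) * x ^ 3) * r3_1_1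

/-- the `S_n` of the problem -/
def S (n : ℕ) : ℤ := ∑ k ∈ range (n - 2), (-1) ^ k * (Nat.choose (2 * k) k : ℤ) * (Nat.choose (n - 3) k : ℤ) *
    (Nat.choose k (n - 3 - k) : ℤ)

lemma S_eq (N : ℕ) : S (N + 3) = U 0 0 N := by
  unfold S U
  rw [show N + 3 - 2 = N + 1 by omega, show N + 3 - 3 = N by omega]
  refine sum_congr rfl fun k hk => ?_
  rw [mem_range, Nat.lt_succ_iff] at hk
  rw [show (N : ℤ) - k - 0 = ((N - k : ℕ) : ℤ) by push_cast [hk]; ring, add_zero, Cz_nat, Cz_nat]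
  ring

/-- `T_m` -/
def T (m : ℕ) : ℤ := S (m + 2) + 12 * S (m + 1) + 16 * S m

lemma T_eq (N : ℕ) : T (N + 3) = ((N : ℤ) + 3) ^ 2 * W (N + 1) + ((N : ℤ) + 3) * ((N : ℤ) + 2) * W N := by
  rw [main_id]
  unfold T
  rw [S_eq, S_eq, S_eq]

/-- `A(n)` -/
def A (n : ℕ) : ℚ := ∑ k ∈ range n, (-1) ^ (k + 1) * (T (k + 1) : ℚ) / ((k : ℚ) + 1)

lemma A_eq (N : ℕ) : A (N + 2) = (-1) ^ N * ((N : ℚ) + 2) * W N := by
  induction N with
  | zero =>
    have t1 : T 1 = 1 := by decide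
    have t2 : T 2 = 10 := by decide
    have w : W 0 = 2 := by
      unfold W
      simp only [U_zero]
      norm_num
    unfold A
    rw [sum_range_succ, sum_range_one]
    simp only [zero_add, Nat.reduceAdd]
    rw [t1, t2, w]
    norm_num
  | succ N ih =>
    have h : A (N + 1 + 2) = A (N + 2) + (-1) ^ (N + 2 + 1) * (T (N + 3) : ℚ) / ((N : ℚ) + 3) := by
      unfold A
      rw [show N + 1 + 2 = N + 2 + 1 by ring, sum_range_succ]
      push_cast
      congr 2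
      ring
    rw [h, ih, T_eq]
    have h3 : ((N : ℚ) + 3) ≠ 0 := by positivity
    push_cast
    field_simp
    ring

/-- the terms modulo `p` -/
lemma U_mod (p : ℕ) [hp : Fact p.Prime] (h2 : 2 < p) (a b : ℤ) (ha : a = 0 ∨ a = 1)
    (hb : b = 0 ∨ b = -1 ∨ b = -2) (m : ℕ) (hm : p = 2 * m + 1) :
    (U a b (p - 2) : ZMod p) = ((m : ZMod p) + 1) * (Cz m ((p : ℤ) - 2 - m - b) : ZMod p) *
      (Cz (2 * m) ((m : ℤ) + a) : ZMod p) := by
  have hcast : ((p - 2 : ℕ) : ℤ) = (p : ℤ) - 2 := by push_cast [show 2 ≤ p by omega]; ring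
  have hsign : ∀ k, k ≤ p - 2 → (-1 : ZMod p) ^ k * ((p - 2).choose k : ZMod p) = (k : ZMod p) + 1 := by
    intro k hk
    have h1 := Pool.Agent.Q278.RM.choose_one p k (by omega)
    have h3 := Nat.choose_mul_succ_eq (p - 2) k
    rw [show p - 2 + 1 = p - 1 by omega] at h3
    have h4 := congrArg (Nat.cast : ℕ → ZMod p) h3
    rw [Nat.cast_mul, Nat.cast_mul, Nat.cast_sub (show k ≤ p - 1 by omega),
      Nat.cast_sub (show 1 ≤ p by omega), ZMod.natCast_self] at h4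
    push_cast at h4
    linear_combination ((k : ZMod p) + 1) * h1 - (-1 : ZMod p) ^ k * h4
  unfold U
  rw [show (p - 2) + 1 = p - 1 by omega, Int.cast_sum]
  rw [sum_eq_single m]
  · rw [hcast]
    push_cast
    rw [hsign m (by omega)]
  · intro k hk hkm
    rw [mem_range] at hk
    rw [hcast]
    rcases lt_or_gt_of_ne hkm with h | h
    · rw [Cz_big k ((p : ℤ) - 2 - k - b) (by omega)]; simp
    · have hz : (Cz (2 * k) ((k : ℤ) + a) : ZMod p) = 0 := by
        have hdvd : ∀ j : ℕ, j < p → 2 * k - j < p → j ≤ 2 * k → p ∣ (2 * k).choose j := by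
          intro j h1 h2 h3
          have := hp.out.dvd_choose_add (a := j) (b := 2 * k - j) h1 h2 (by omega)
          rwa [show j + (2 * k - j) = 2 * k by omega] at this
        rcases ha with rfl | rfl
        · rw [add_zero, Cz_nat]
          have := hdvd k (by omega) (by omega) (by omega)
          rw [Int.cast_natCast, ZMod.natCast_eq_zero_iff]
          exact this
        · rw [show (k : ℤ) + 1 = ((k + 1 : ℕ) : ℤ) by push_cast; rfl, Cz_nat]
          have := hdvd (k + 1) (by omega) (by omega) (by omega)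
          rw [Int.cast_natCast, ZMod.natCast_eq_zero_iff]
          exact this
      push_cast
      rw [hz, mul_zero]
  · intro h
    rw [mem_range] at h
    omega

theorem W_mod (p : ℕ) [hp : Fact p.Prime] (h2 : 2 < p) (m : ℕ) (hm : p = 2 * m + 1) :
    (W (p - 2) : ZMod p) = 2 * (-1) ^ m := by
  have hm1 : 1 ≤ m := by omega
  have e0 := U_mod p h2 0 (-2) (Or.inl rfl) (by norm_num) m hm
  have e1 := U_mod p h2 0 (-1) (Or.inl rfl) (by norm_num) m hm
  have e2 := U_mod p h2 0 0 (Or.inl rfl) (by norm_num) m hm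
  have e3 := U_mod p h2 1 (-1) (Or.inr rfl) (by norm_num) m hm
  have e4 := U_mod p h2 1 0 (Or.inr rfl) (by norm_num) m hm
  have c0 : Cz m ((p : ℤ) - 2 - m - -2) = 0 := Cz_big _ _ (by omega)
  have c1 : Cz m ((p : ℤ) - 2 - m - -1) = 1 := by
    rw [show (p : ℤ) - 2 - m - -1 = (m : ℤ) by rw [hm]; push_cast; ring, Cz_nat]; simp
  have c2 : Cz m ((p : ℤ) - 2 - m - 0) = m := by
    rw [show (p : ℤ) - 2 - m - 0 = ((m - 1 : ℕ) : ℤ) by rw [hm]; push_cast [hm1]; ring, Cz_nat]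
    obtain ⟨j, rfl⟩ : ∃ j, m = j + 1 := ⟨m - 1, by omega⟩
    rw [Nat.add_sub_cancel, Nat.choose_symm_of_eq_add (show j + 1 = j + 1 from rfl), Nat.choose_one_right]
  have d0 : Cz (2 * m) ((m : ℤ) + 0) = ((2 * m).choose m : ℤ) := by rw [add_zero, Cz_nat]
  have d1 : Cz (2 * m) ((m : ℤ) + 1) = ((2 * m).choose (m + 1) : ℤ) := by
    rw [show (m : ℤ) + 1 = ((m + 1 : ℕ) : ℤ) by push_cast; rfl, Cz_nat]
  have hc : ((2 * m).choose m : ZMod p) = (-1) ^ m := by
    have h1 := Pool.Agent.Q278.RM.choose_one p m (by omega)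
    rw [show p - 1 = 2 * m by omega] at h1
    have h3 : ((-1 : ZMod p) ^ m) * (-1) ^ m = 1 := by rw [← mul_pow]; simp
    linear_combination (-1 : ZMod p) ^ m * h1 - ((2 * m).choose m : ZMod p) * h3
  have hd : ((m : ZMod p) + 1) * ((2 * m).choose (m + 1) : ZMod p) = m * (-1) ^ m := by
    have h1 := Nat.choose_succ_right_eq (2 * m) m
    have h3 := congrArg (Nat.cast : ℕ → ZMod p) h1
    rw [show 2 * m - m = m by omega] at h3
    push_cast at h3
    rw [hc] at h3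
    linear_combination h3
  have hp0 : 2 * (m : ZMod p) + 1 = 0 := by
    have : ((2 * m + 1 : ℕ) : ZMod p) = 0 := by rw [← hm]; exact ZMod.natCast_self p
    push_cast at this
    exact this
  unfold W
  push_cast
  rw [e0, e1, e2, e3, e4, c0, c1, c2, d0, d1]
  push_cast
  rw [hc]
  generalize ((2 * m).choose (m + 1) : ZMod p) = y at *
  generalize (-1 : ZMod p) ^ m = c at *
  generalize (m : ZMod p) = x at *
  linear_combination (-4 - 6 * x) * hd + (2 - 2 * x) * c * hp0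

end Pool.Agent.Q278.CT
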